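import Pool.Agent.Helper72.PT.St

/-! PT MODULE A: dyadic summation of `u x * Dn y x` -/

open Finset

namespace Pool.PT.H90A

open Pool.HW Pool.PL Pool.PT

theorem sum_union_le' {ι : Type} [DecidableEq ι] (s t : Finset ι) (f : ι → ℝ)
    (hf : ∀ i, 0 ≤ f i) : ∑ i ∈ s ∪ t, f i ≤ ∑ i ∈ s, f i + ∑ i ∈ t, f i := by
  rw [← sum_union_inter]
  have : 0 ≤ ∑ i ∈ s ∩ t, f i := sum_nonneg fun i _ => hf i
  linarith

theorem sum_biUnion_le' {ι κ : Type} [DecidableEq ι] [DecidableEq κ] (s : Finset κ)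
    (t : κ → Finset ι) (f : ι → ℝ) (hf : ∀ i, 0 ≤ f i) :
    ∑ i ∈ s.biUnion t, f i ≤ ∑ k ∈ s, ∑ i ∈ t k, f i := by
  induction s using Finset.induction_on with
  | empty => simp
  | insert a s ha ih =>
    rw [biUnion_insert, sum_insert ha]
    exact (sum_union_le' _ _ f hf).trans (by linarith)

variable {α : Type} [DecidableEq α] (S : Sys α)

theorem Dn_le (y x : ℕ) : S.Dn y x ≤ S.u y * S.u x := by
  rw [Sys.Dn, Sys.u, Sys.u, sum_mul_sum, ← sum_product']
  refine sum_le_sum fun q _ => ?_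
  have h0 : 0 ≤ S.wt q.1 * S.wt q.2 := mul_nonneg (S.wt_nonneg _) (S.wt_nonneg _)
  exact div_le_self h0 (by
    have : (0 : ℝ) ≤ (S.nc q.1 q.2 : ℝ) := Nat.cast_nonneg _
    linarith)

/-- shifted sums of `u` -/
theorem shift_sum (f : ℕ → ℝ) (hf : ∀ i, 0 ≤ f i) (s lo hi m : ℕ) (h : hi ≤ m + s) :
    ∑ y ∈ (Ioc lo hi).filter (fun y => s ≤ y), f (y - s) ≤ ∑ i ∈ range (m + 1), f i := by
  have h1 : ∑ y ∈ (Ioc lo hi).filter (fun y => s ≤ y), f (y - s) =
      ∑ i ∈ ((Ioc lo hi).filter (fun y => s ≤ y)).image (fun y => y - s), f i := by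
    rw [sum_image]
    intro a ha b hb hab
    simp only [coe_filter, mem_Ioc, Set.mem_setOf_eq] at ha hb
    simp only at hab
    omega
  rw [h1]
  refine sum_le_sum_of_subset_of_nonneg ?_ fun i _ _ => hf i
  intro i hi'
  simp only [mem_image, mem_filter, mem_Ioc, mem_range] at hi' ⊢
  obtain ⟨y, hy, rfl⟩ := hi'
  omega

/-- the general block -/
theorem block (hC : StCross) {r a b c d : ℕ} (ha : r ≤ a) (hc : r ≤ c) {X Y : ℝ}
    (hX : ∀ s, r < s → ∑ y ∈ (Ioc a b).filter (fun y => s ≤ y), S.u (y - s) ≤ X)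
    (hY : ∀ s, r < s → ∑ x ∈ (Ioc c d).filter (fun x => s ≤ x), S.u x * S.u (x - s) ≤ Y)
    (hX0 : 0 ≤ X) :
    ∑ y ∈ Ioc a b, ∑ x ∈ Ioc c d, S.u x * S.Dn y x ≤ S.ee r * (X * Y) := by
  have hcr := (hC α S r).2.2
  let W : List α × List α → ℝ := fun q => S.wt q.1 * S.wt q.2 / ((S.ncr r q.1 q.2 : ℝ) + 1)
  have hW : ∀ q, 0 ≤ W q := fun q =>
    div_nonneg (mul_nonneg (S.wt_nonneg _) (S.wt_nonneg _)) (by positivity)
  have h1 : ∀ y ∈ Ioc a b, ∀ x ∈ Ioc c d, S.u x * S.Dn y x ≤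
      ∑ q ∈ S.CR r ×ˢ S.CR r, W q * ((if S.ht q.1 ≤ y then S.u (y - S.ht q.1) else 0) *
        (if S.ht q.2 ≤ x then S.u x * S.u (x - S.ht q.2) else 0)) := by
    intro y hy x hx
    rw [mem_Ioc] at hy hx
    have h2 := mul_le_mul_of_nonneg_left (hcr y x (by omega) (by omega)) (S.u_nonneg x)
    refine h2.trans (le_of_eq ?_)
    rw [sum_filter, mul_sum]
    refine sum_congr rfl fun q _ => ?_
    by_cases e1 : S.ht q.1 ≤ y
    · by_cases e2 : S.ht q.2 ≤ x
      · simp only [W, e1, e2, and_self, if_true]; ring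
      · simp only [e1, e2, and_false, if_false]; ring
    · simp only [e1, false_and, if_false]; ring
  have h3 : ∑ y ∈ Ioc a b, ∑ x ∈ Ioc c d, S.u x * S.Dn y x ≤
      ∑ q ∈ S.CR r ×ˢ S.CR r, W q *
        ((∑ y ∈ (Ioc a b).filter (fun y => S.ht q.1 ≤ y), S.u (y - S.ht q.1)) *
        ∑ x ∈ (Ioc c d).filter (fun x => S.ht q.2 ≤ x), S.u x * S.u (x - S.ht q.2)) := by
    refine (sum_le_sum fun y hy => sum_le_sum fun x hx => h1 y hy x hx).trans (le_of_eq ?_)
    have e1 : ∀ y ∈ Ioc a b, ∑ x ∈ Ioc c d, ∑ q ∈ S.CR r ×ˢ S.CR r,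
        W q * ((if S.ht q.1 ≤ y then S.u (y - S.ht q.1) else 0) *
        (if S.ht q.2 ≤ x then S.u x * S.u (x - S.ht q.2) else 0)) =
        ∑ q ∈ S.CR r ×ˢ S.CR r, ∑ x ∈ Ioc c d,
        W q * ((if S.ht q.1 ≤ y then S.u (y - S.ht q.1) else 0) *
        (if S.ht q.2 ≤ x then S.u x * S.u (x - S.ht q.2) else 0)) := fun y _ => sum_comm
    rw [sum_congr rfl e1, sum_comm]
    refine sum_congr rfl fun q _ => ?_
    rw [sum_filter, sum_filter, sum_mul_sum, mul_sum]
    refine sum_congr rfl fun y _ => ?_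
    rw [mul_sum]
  refine h3.trans ?_
  rw [Sys.ee, sum_mul]
  refine sum_le_sum fun q hq => ?_
  rw [mem_product] at hq
  have g1 := ((S.mem_CR).1 hq.1).2.1
  have g2 := ((S.mem_CR).1 hq.2).2.1
  refine mul_le_mul_of_nonneg_left ?_ (hW q)
  exact mul_le_mul (hX _ g1) (hY _ g2)
    (sum_nonneg fun x _ => mul_nonneg (S.u_nonneg _) (S.u_nonneg _)) hX0

theorem a (hE : StEe) (hC : StCross) (hS : StScal) : StA := by
  intro α _ S N J hNJ
  obtain ⟨hu1, hUadd, hV, hUV⟩ := hS α S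
  have hu0 := fun h => S.u_nonneg h
  have hUN : 0 ≤ S.U N := S.U_nonneg N
  have hmono : ∀ {m n : ℕ}, m ≤ n → S.U m ≤ S.U n := by
    intro m n hmn
    exact sum_le_sum_of_subset_of_nonneg (range_subset_range.2 (by omega)) fun i _ _ => hu0 i
  let F : ℕ × ℕ → ℝ := fun p => S.u p.2 * S.Dn p.1 p.2
  have hF : ∀ p, 0 ≤ F p := fun p => mul_nonneg (hu0 _) (S.Dn_nonneg _ _)
  -- small terms
  have hVU : S.V N ≤ S.U N := by
    refine sum_le_sum fun i _ => ?_
    have := mul_le_mul_of_nonneg_left (hu1 i) (hu0 i)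
    rw [sq]; linarith
  have hcauchy : ∀ s lo hi : ℕ, ∑ x ∈ (Ioc lo hi).filter (fun x => s ≤ x),
      S.u x * S.u (x - s) ≤ (∑ x ∈ Ioc lo hi, S.u x ^ 2 +
        ∑ x ∈ (Ioc lo hi).filter (fun x => s ≤ x), S.u (x - s) ^ 2) / 2 := by
    intro s lo hi
    have h1 : ∑ x ∈ (Ioc lo hi).filter (fun x => s ≤ x), S.u x * S.u (x - s) ≤
        ∑ x ∈ (Ioc lo hi).filter (fun x => s ≤ x), (S.u x ^ 2 + S.u (x - s) ^ 2) / 2 := by
      refine sum_le_sum fun x _ => ?_
      nlinarith [sq_nonneg (S.u x - S.u (x - s))]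
    have h2 : ∑ x ∈ (Ioc lo hi).filter (fun x => s ≤ x), S.u x ^ 2 ≤ ∑ x ∈ Ioc lo hi, S.u x ^ 2 :=
      sum_le_sum_of_subset_of_nonneg (filter_subset _ _) fun x _ _ => sq_nonneg _
    rw [← sum_div, sum_add_distrib] at h1
    linarith
  -- the blocks
  have hblk : ∀ i ∈ range J,
      (∑ p ∈ Ioc (2 ^ i) N ×ˢ Ioc (2 ^ i) (2 * 2 ^ i), F p) +
      ∑ p ∈ Ioc (2 ^ i) (2 * 2 ^ i) ×ˢ Ioc (2 ^ i) N, F p ≤ 16 * ((i : ℝ) + 2) * S.U N := by
    intro i _
    set r := 2 ^ i with hr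
    have hr1 : 1 ≤ r := Nat.one_le_two_pow
    have hee : S.ee r * S.V r ≤ 2 * ((i : ℝ) + 2) := by
      have := hE α S r (i + 1) (by rw [hr]; exact Nat.pow_lt_pow_right (by norm_num) (by omega))
      push_cast at this
      linarith
    have hee0 := S.ee_nonneg r
    have hVr0 := S.V_nonneg r
    by_cases hrN : r ≤ N
    · have b1 : ∑ p ∈ Ioc r N ×ˢ Ioc r (2 * r), F p ≤ S.ee r * (S.U N * S.V r) := by
        rw [sum_product]
        refine block S hC le_rfl le_rfl ?_ ?_ hUN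
        · intro s _
          exact shift_sum S.u hu0 s r N N (by omega)
        · intro s hs
          have h1 := hcauchy s r (2 * r)
          have h2 : ∑ x ∈ Ioc r (2 * r), S.u x ^ 2 ≤ S.V r := by
            have := hV r r; rwa [← two_mul] at this
          have h3 : ∑ x ∈ (Ioc r (2 * r)).filter (fun x => s ≤ x), S.u (x - s) ^ 2 ≤ S.V r :=
            shift_sum (fun i => S.u i ^ 2) (fun i => sq_nonneg _) s r (2 * r) r (by omega)
          linarith
      have b2 : ∑ p ∈ Ioc r (2 * r) ×ˢ Ioc r N, F p ≤ S.ee r * (S.U r * S.V N) := by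
        rw [sum_product]
        refine block S hC le_rfl le_rfl ?_ ?_ (S.U_nonneg r)
        · intro s hs
          exact shift_sum S.u hu0 s r (2 * r) r (by omega)
        · intro s hs
          have h1 := hcauchy s r N
          have h2 : ∑ x ∈ Ioc r N, S.u x ^ 2 ≤ S.V N :=
            sum_le_sum_of_subset_of_nonneg (by intro k; simp only [mem_Ioc, mem_range]; omega)
              fun k _ _ => sq_nonneg _
          have h3 : ∑ x ∈ (Ioc r N).filter (fun x => s ≤ x), S.u (x - s) ^ 2 ≤ S.V N :=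
            shift_sum (fun i => S.u i ^ 2) (fun i => sq_nonneg _) s r N N (by omega)
          linarith
      have b3 := mul_le_mul_of_nonneg_left (hUV r N hr1 hrN) hee0
      have b4 := mul_le_mul_of_nonneg_right hee hUN
      have b5 : S.ee r * (S.U N * S.V r) = S.ee r * S.V r * S.U N := by ring
      have b6 : S.ee r * (S.U r * S.V N) ≤ 7 * (S.ee r * S.V r * S.U N) := by
        have : S.ee r * (S.U r * S.V N) = S.ee r * (S.V N * S.U r) := by ring
        rw [this]
        refine b3.trans (le_of_eq ?_)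
        ring
      linarith
    · have e1 : Ioc r N = ∅ := Ioc_eq_empty (by omega)
      rw [e1, empty_product, product_empty, sum_empty, add_zero]
      positivity
  -- covering
  have hcov : range (N + 1) ×ˢ range (N + 1) ⊆
      ((range 2 ×ˢ range (N + 1)) ∪ (range (N + 1) ×ˢ range 2)) ∪
      (range J).biUnion (fun i => (Ioc (2 ^ i) N ×ˢ Ioc (2 ^ i) (2 * 2 ^ i)) ∪
        (Ioc (2 ^ i) (2 * 2 ^ i) ×ˢ Ioc (2 ^ i) N)) := by
    rintro ⟨y, x⟩ hp
    simp only [mem_product, mem_range] at hp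
    simp only [mem_union, mem_biUnion, mem_product, mem_range, mem_Ioc]
    by_cases h1 : y < 2
    · left; left; omega
    by_cases h2 : x < 2
    · left; right; omega
    right
    -- the exponent
    set m := min y x with hm
    have hm2 : 2 ≤ m := by omega
    have hlog : 2 ^ Nat.log 2 (m - 1) ≤ m - 1 := Nat.pow_log_le_self 2 (by omega)
    have hlog2 : m - 1 < 2 ^ (Nat.log 2 (m - 1) + 1) := Nat.lt_pow_succ_log_self (by norm_num) _
    refine ⟨Nat.log 2 (m - 1), ?_, ?_⟩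
    · have h3 : 2 ^ Nat.log 2 (m - 1) < 2 ^ J := by omega
      exact (Nat.pow_lt_pow_iff_right (by norm_num)).1 h3
    · rw [pow_succ] at hlog2
      rcases le_total y x with h | h
      · right
        omega
      · left
        omega
  have hsmall1 : ∑ p ∈ range 2 ×ˢ range (N + 1), F p ≤ 2 * S.U N := by
    rw [sum_product]
    have : ∀ y ∈ range 2, ∑ x ∈ range (N + 1), F (y, x) ≤ S.U N := by
      intro y _
      refine le_trans ?_ hVU
      refine sum_le_sum fun x _ => ?_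
      have h1 := mul_le_mul_of_nonneg_left (Dn_le S y x) (hu0 x)
      have h2 : S.u x * (S.u y * S.u x) ≤ S.u x ^ 2 := by
        have := mul_le_mul_of_nonneg_right (hu1 y) (sq_nonneg (S.u x))
        nlinarith
      exact h1.trans h2
    refine (sum_le_sum this).trans (le_of_eq ?_)
    rw [sum_const, card_range]; simp
  have hsmall2 : ∑ p ∈ range (N + 1) ×ˢ range 2, F p ≤ 2 * S.U N := by
    rw [sum_product, sum_comm]
    have : ∀ x ∈ range 2, ∑ y ∈ range (N + 1), F (y, x) ≤ S.U N := by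
      intro x _
      refine sum_le_sum fun y _ => ?_
      have h1 := mul_le_mul_of_nonneg_left (Dn_le S y x) (hu0 x)
      have h2 : S.u x * (S.u y * S.u x) ≤ S.u y := by
        have h3 : S.u x * S.u x ≤ 1 := by nlinarith [hu0 x, hu1 x]
        have := mul_le_mul_of_nonneg_right h3 (hu0 y)
        nlinarith
      exact h1.trans h2
    refine (sum_le_sum this).trans (le_of_eq ?_)
    rw [sum_const, card_range]; simp
  have hsumJ : ∑ i ∈ range J, 16 * ((i : ℝ) + 2) * S.U N =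
      (8 * (J : ℝ) ^ 2 + 24 * J) * S.U N := by
    rw [← sum_mul]
    congr 1
    clear hcov hblk hNJ
    induction J with
    | zero => simp
    | succ J ih => rw [sum_range_succ, ih]; push_cast; ring
  have htot : ∑ y ∈ range (N + 1), ∑ x ∈ range (N + 1), S.u x * S.Dn y x ≤
      2 * S.U N + 2 * S.U N + (8 * (J : ℝ) ^ 2 + 24 * J) * S.U N := by
    have e0 : ∑ y ∈ range (N + 1), ∑ x ∈ range (N + 1), S.u x * S.Dn y x =
        ∑ p ∈ range (N + 1) ×ˢ range (N + 1), F p := by rw [sum_product]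
    rw [e0]
    refine (sum_le_sum_of_subset_of_nonneg hcov fun p _ _ => hF p).trans ?_
    refine (sum_union_le' _ _ F hF).trans (add_le_add ?_ ?_)
    · exact (sum_union_le' _ _ F hF).trans (add_le_add hsmall1 hsmall2)
    · refine (sum_biUnion_le' _ _ F hF).trans ?_
      rw [← hsumJ]
      refine sum_le_sum fun i hi => ?_
      exact (sum_union_le' _ _ F hF).trans (hblk i hi)
  refine htot.trans ?_
  have hJ : (0 : ℝ) ≤ J := Nat.cast_nonneg J
  nlinarith [mul_nonneg hUN (sq_nonneg (J : ℝ)), mul_nonneg hUN hJ]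

end Pool.PT.H90A
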