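import Pool.Agent.Helper72.PT.St

/-! PT MODULE Norm: the weighted Hilbert-Schmidt estimate of the chain -/

open Finset

namespace Pool.PT.H90Norm

open Pool.HW Pool.PL Pool.PT

/-- the weighted norm -/
noncomputable def nu (u : ℕ → ℝ) (N : ℕ) (f : ℕ → ℝ) : ℝ :=
  Real.sqrt (∑ y ∈ range (N + 1), f y ^ 2 / u y)

noncomputable def vec (u : ℕ → ℝ) (N : ℕ) (f : ℕ → ℝ) : EuclideanSpace ℝ (Fin (N + 1)) :=
  WithLp.toLp 2 (fun i => f i / Real.sqrt (u i))

variable {u : ℕ → ℝ} {N : ℕ}

theorem norm_vec (hu : ∀ y, 0 < u y) (f : ℕ → ℝ) : ‖vec u N f‖ = nu u N f := by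
  rw [EuclideanSpace.norm_eq, nu, ← Fin.sum_univ_eq_sum_range (fun y => f y ^ 2 / u y) (N + 1)]
  congr 1
  refine sum_congr rfl fun i _ => ?_
  change ‖f i / Real.sqrt (u i)‖ ^ 2 = _
  rw [Real.norm_eq_abs, sq_abs, div_pow, Real.sq_sqrt (hu _).le]

theorem nu_nonneg (f : ℕ → ℝ) : 0 ≤ nu u N f := Real.sqrt_nonneg _

theorem nu_add (hu : ∀ y, 0 < u y) (f g : ℕ → ℝ) :
    nu u N (fun y => f y + g y) ≤ nu u N f + nu u N g := by
  rw [← norm_vec hu, ← norm_vec hu, ← norm_vec hu]
  have : vec u N (fun y => f y + g y) = vec u N f + vec u N g := by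
    ext i
    change (f i + g i) / Real.sqrt (u i) = f i / Real.sqrt (u i) + g i / Real.sqrt (u i)
    rw [add_div]
  rw [this]
  exact norm_add_le _ _

theorem nu_mul {c : ℝ} (hc : 0 ≤ c) (f : ℕ → ℝ) :
    nu u N (fun y => c * f y) = c * nu u N f := by
  rw [nu, nu]
  have : ∑ y ∈ range (N + 1), (c * f y) ^ 2 / u y = c ^ 2 * ∑ y ∈ range (N + 1), f y ^ 2 / u y := by
    rw [mul_sum]
    refine sum_congr rfl fun y _ => ?_
    rw [mul_pow, mul_div_assoc]
  rw [this, Real.sqrt_mul (sq_nonneg c), Real.sqrt_sq hc]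

theorem nu_zero : nu u N (fun _ => 0) = 0 := by
  simp [nu]

theorem nu_sum (hu : ∀ y, 0 < u y) {ι : Type} [DecidableEq ι] (s : Finset ι)
    (f : ι → ℕ → ℝ) : nu u N (fun y => ∑ i ∈ s, f i y) ≤ ∑ i ∈ s, nu u N (f i) := by
  induction s using Finset.induction_on with
  | empty => simp [nu]
  | insert a s ha ih =>
    simp only [sum_insert ha]
    exact (nu_add hu _ _).trans (by linarith)

/-- Hilbert-Schmidt norm of the convolution kernel -/
noncomputable def T (u : ℕ → ℝ) (t : ℕ → ℕ → ℝ) (N s : ℕ) : ℝ :=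
  Real.sqrt (∑ y ∈ range (N + 1), ∑ y' ∈ range (s + 1), t y (s - y') ^ 2 * u y' / u y)

theorem kernel_le (hu : ∀ y, 0 < u y) (t : ℕ → ℕ → ℝ) (f : ℕ → ℝ) {s : ℕ} (hs : s ≤ N) :
    nu u N (fun y => ∑ y' ∈ range (s + 1), t y (s - y') * f y') ≤ T u t N s * nu u N f := by
  have hF : 0 ≤ ∑ y ∈ range (N + 1), f y ^ 2 / u y :=
    sum_nonneg fun y _ => div_nonneg (sq_nonneg _) (hu y).le
  rw [nu, T, nu, ← Real.sqrt_mul (sum_nonneg fun y _ => sum_nonneg fun y' _ =>
    div_nonneg (mul_nonneg (sq_nonneg _) (hu y').le) (hu y).le), sum_mul]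
  refine Real.sqrt_le_sqrt (sum_le_sum fun y _ => ?_)
  have h1 : (∑ y' ∈ range (s + 1), t y (s - y') * f y') ^ 2 ≤
      (∑ y' ∈ range (s + 1), t y (s - y') ^ 2 * u y') *
        ∑ y' ∈ range (s + 1), f y' ^ 2 / u y' := by
    have h2 := sum_mul_sq_le_sq_mul_sq (range (s + 1))
      (fun y' => t y (s - y') * Real.sqrt (u y')) (fun y' => f y' / Real.sqrt (u y'))
    have e1 : ∀ y', t y (s - y') * Real.sqrt (u y') * (f y' / Real.sqrt (u y')) =
        t y (s - y') * f y' := by
      intro y'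
      have h0 : Real.sqrt (u y') ≠ 0 := (Real.sqrt_pos.2 (hu y')).ne'
      field_simp
    have e2 : ∀ y', (t y (s - y') * Real.sqrt (u y')) ^ 2 = t y (s - y') ^ 2 * u y' := by
      intro y'; rw [mul_pow, Real.sq_sqrt (hu y').le]
    have e3 : ∀ y', (f y' / Real.sqrt (u y')) ^ 2 = f y' ^ 2 / u y' := by
      intro y'; rw [div_pow, Real.sq_sqrt (hu y').le]
    simp only [e1, e2, e3] at h2
    exact h2
  have h3 : ∑ y' ∈ range (s + 1), f y' ^ 2 / u y' ≤ ∑ y ∈ range (N + 1), f y ^ 2 / u y :=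
    sum_le_sum_of_subset_of_nonneg (range_subset_range.2 (by omega))
      fun y _ _ => div_nonneg (sq_nonneg _) (hu y).le
  have h4 : 0 ≤ ∑ y' ∈ range (s + 1), t y (s - y') ^ 2 * u y' :=
    sum_nonneg fun y' _ => mul_nonneg (sq_nonneg _) (hu y').le
  rw [← sum_div, div_mul_eq_mul_div]
  exact div_le_div_of_nonneg_right (h1.trans (mul_le_mul_of_nonneg_left h3 h4)) (hu y).le

theorem norm' : StNorm := by
  intro u t q bad r a0 N g0 Q A Bd hu hu0 ht hq hbad hg0 hr haN hr0 hrec hQ hA hBd
  set U : ℝ := ∑ i ∈ range (N + 1), u i with hU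
  have hUnn : 0 ≤ U := sum_nonneg fun i _ => (hu i).le
  -- norm of u
  have hnu_u : nu u N u = Real.sqrt U := by
    rw [nu]
    congr 1
    refine sum_congr rfl fun y _ => ?_
    have := (hu y).ne'
    field_simp
  -- value at zero
  have hval : ∀ a, r a 0 ≤ nu u N (r a) := by
    intro a
    refine Real.le_sqrt_of_sq_le ?_
    have : r a 0 ^ 2 = r a 0 ^ 2 / u 0 := by rw [hu0, div_one]
    rw [this]
    exact single_le_sum (f := fun y => r a y ^ 2 / u y)
      (fun y _ => div_nonneg (sq_nonneg _) (hu y).le) (mem_range.2 (Nat.succ_pos N))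
  let kap : ℕ → ℝ := fun h => ∑ g ∈ range (h + 1), q g * T u t N (h - g) + Real.sqrt U * bad h
  have hT : ∀ s, 0 ≤ T u t N s := fun s => Real.sqrt_nonneg _
  have hkap : ∀ h, 0 ≤ kap h := fun h => add_nonneg
    (sum_nonneg fun g _ => mul_nonneg (hq g) (hT _)) (mul_nonneg (Real.sqrt_nonneg _) (hbad h))
  -- one step
  have hstep : ∀ a, a0 ≤ a → a < N → nu u N (r (a + 1)) ≤ (1 + kap (a + 1)) * nu u N (r a) := by
    intro a ha haN'
    have hfun : r (a + 1) = fun y => (r a y + ∑ g ∈ range (a + 1 + 1),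
        q g * ∑ y' ∈ range (a + 1 - g + 1), t y (a + 1 - g - y') * r a y') +
        (bad (a + 1) * r a 0) * u y := by
      funext y
      rw [hrec a y ha]
      congr 1
      · congr 1
        have e1 : ∀ y' ∈ range (a + 2), (∑ g ∈ range (a + 1 - y' + 1),
            q g * t y (a + 1 - y' - g)) * r a y' =
            ∑ g ∈ range (a + 1 - y' + 1), q g * t y (a + 1 - y' - g) * r a y' := by
          intro y' _; rw [sum_mul]
        have e2 : ∀ g ∈ range (a + 1 + 1), q g * ∑ y' ∈ range (a + 1 - g + 1),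
            t y (a + 1 - g - y') * r a y' =
            ∑ y' ∈ range (a + 1 - g + 1), q g * t y (a + 1 - y' - g) * r a y' := by
          intro g _
          rw [mul_sum]
          refine sum_congr rfl fun y' _ => ?_
          rw [Nat.sub_right_comm (a + 1) g y', mul_assoc]
        rw [sum_congr rfl e1, sum_congr rfl e2]
        refine sum_comm' ?_
        intro y' g
        simp only [mem_range]
        omega
      · ring
    have h1 : nu u N (r (a + 1)) ≤ nu u N (r a) + ∑ g ∈ range (a + 1 + 1),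
        nu u N (fun y => q g * ∑ y' ∈ range (a + 1 - g + 1), t y (a + 1 - g - y') * r a y') +
        nu u N (fun y => (bad (a + 1) * r a 0) * u y) := by
      rw [hfun]
      refine (nu_add hu _ _).trans (add_le_add_left ?_ _)
      refine (nu_add hu _ _).trans (add_le_add_right ?_ _)
      exact nu_sum hu _ (fun g y => q g * ∑ y' ∈ range (a + 1 - g + 1),
        t y (a + 1 - g - y') * r a y')
    have h2 : ∀ g ∈ range (a + 1 + 1), nu u N (fun y => q g * ∑ y' ∈ range (a + 1 - g + 1),
        t y (a + 1 - g - y') * r a y') ≤ q g * T u t N (a + 1 - g) * nu u N (r a) := by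
      intro g hg
      rw [nu_mul (hq g), mul_assoc]
      exact mul_le_mul_of_nonneg_left (kernel_le hu t (r a) (by omega)) (hq g)
    have h3 : nu u N (fun y => (bad (a + 1) * r a 0) * u y) ≤
        Real.sqrt U * bad (a + 1) * nu u N (r a) := by
      rw [nu_mul (mul_nonneg (hbad _) (hr _ _)), hnu_u]
      have := mul_le_mul_of_nonneg_left (hval a)
        (mul_nonneg (Real.sqrt_nonneg U) (hbad (a + 1)))
      linarith [this]
    have h4 := sum_le_sum h2
    rw [← sum_mul] at h4
    have : (1 + kap (a + 1)) * nu u N (r a) = nu u N (r a) +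
        (∑ g ∈ range (a + 1 + 1), q g * T u t N (a + 1 - g)) * nu u N (r a) +
        Real.sqrt U * bad (a + 1) * nu u N (r a) := by
      simp only [kap]; ring
    rw [this]
    linarith
  -- iteration
  have hiter : ∀ k, a0 + k ≤ N → nu u N (r (a0 + k)) ≤
      nu u N (r a0) * Real.exp (∑ h ∈ Ioc a0 (a0 + k), kap h) := by
    intro k
    induction k with
    | zero => intro _; simp
    | succ k ih =>
      intro hk
      have h1 := hstep (a0 + k) (by omega) (by omega)
      have h2 := ih (by omega)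
      have h3 : Ioc a0 (a0 + (k + 1)) = insert (a0 + k + 1) (Ioc a0 (a0 + k)) := by
        ext i; simp only [mem_Ioc, mem_insert]; omega
      rw [h3, sum_insert (by simp), Real.exp_add]
      have h4 : 1 + kap (a0 + k + 1) ≤ Real.exp (kap (a0 + k + 1)) := by
        have := Real.add_one_le_exp (kap (a0 + k + 1)); linarith
      calc nu u N (r (a0 + (k + 1))) ≤ (1 + kap (a0 + k + 1)) * nu u N (r (a0 + k)) := h1
        _ ≤ Real.exp (kap (a0 + k + 1)) *
            (nu u N (r a0) * Real.exp (∑ h ∈ Ioc a0 (a0 + k), kap h)) :=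
          mul_le_mul h4 h2 (nu_nonneg _) (Real.exp_pos _).le
        _ = _ := by ring
  have hfin := hiter (N - a0) (by omega)
  rw [show a0 + (N - a0) = N by omega] at hfin
  -- start
  have hstart : nu u N (r a0) = g0 * Real.sqrt U := by
    have : r a0 = fun y => g0 * u y := funext fun y => hr0 y
    rw [this, nu_mul hg0, hnu_u]
  -- sum of the T
  have hTsum : ∑ s ∈ range (N + 1), T u t N s ≤ Real.sqrt (((N : ℝ) + 1) * U * A) := by
    refine Real.le_sqrt_of_sq_le ?_
    have h1 : (∑ s ∈ range (N + 1), T u t N s) ^ 2 ≤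
        ((N : ℝ) + 1) * ∑ s ∈ range (N + 1), T u t N s ^ 2 := by
      have := sq_sum_le_card_mul_sum_sq (s := range (N + 1)) (f := fun s => T u t N s)
      rw [card_range] at this
      push_cast at this
      exact this
    have h2 : ∑ s ∈ range (N + 1), T u t N s ^ 2 ≤ U * A := by
      have e1 : ∀ s ∈ range (N + 1), T u t N s ^ 2 =
          ∑ y' ∈ range (s + 1), ∑ y ∈ range (N + 1), t y (s - y') ^ 2 * u y' / u y := by
        intro s _
        rw [T, Real.sq_sqrt (sum_nonneg fun y _ => sum_nonneg fun y' _ =>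
          div_nonneg (mul_nonneg (sq_nonneg _) (hu y').le) (hu y).le), sum_comm]
      rw [sum_congr rfl e1]
      have e2 : ∑ s ∈ range (N + 1), ∑ y' ∈ range (s + 1), ∑ y ∈ range (N + 1),
          t y (s - y') ^ 2 * u y' / u y = ∑ y' ∈ range (N + 1), ∑ s ∈ Ico y' (N + 1),
          ∑ y ∈ range (N + 1), t y (s - y') ^ 2 * u y' / u y := by
        refine sum_comm' ?_
        intro s y'
        simp only [mem_range, mem_Ico]
        omega
      rw [e2, hU, sum_mul]
      refine sum_le_sum fun y' hy' => ?_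
      have e3 : ∑ s ∈ Ico y' (N + 1), ∑ y ∈ range (N + 1), t y (s - y') ^ 2 * u y' / u y =
          u y' * ∑ s ∈ Ico y' (N + 1), ∑ y ∈ range (N + 1), t y (s - y') ^ 2 / u y := by
        rw [mul_sum]
        refine sum_congr rfl fun s _ => ?_
        rw [mul_sum]
        refine sum_congr rfl fun y _ => ?_
        ring
      rw [e3]
      refine mul_le_mul_of_nonneg_left ?_ (hu y').le
      refine le_trans ?_ hA
      rw [sum_comm (s := range (N + 1)) (t := range (N + 1))]
      rw [sum_Ico_eq_sum_range]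
      have e4 : ∀ k ∈ range (N + 1 - y'), ∑ y ∈ range (N + 1), t y (y' + k - y') ^ 2 / u y =
          ∑ y ∈ range (N + 1), t y k ^ 2 / u y := by
        intro k _; rw [Nat.add_sub_cancel_left]
      rw [sum_congr rfl e4]
      exact sum_le_sum_of_subset_of_nonneg (range_subset_range.2 (by omega))
        fun k _ _ => sum_nonneg fun y _ => div_nonneg (sq_nonneg _) (hu y).le
    calc _ ≤ _ := h1
      _ ≤ ((N : ℝ) + 1) * (U * A) := mul_le_mul_of_nonneg_left h2 (by positivity)
      _ = _ := by ring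
  -- sum of kap
  have hkapsum : ∑ h ∈ Ioc a0 N, kap h ≤ Q * Real.sqrt (((N : ℝ) + 1) * U * A) +
      Real.sqrt U * Bd := by
    simp only [kap]
    rw [sum_add_distrib]
    refine add_le_add ?_ ?_
    · have h1 : ∑ h ∈ Ioc a0 N, ∑ g ∈ range (h + 1), q g * T u t N (h - g) ≤
          ∑ h ∈ range (N + 1), ∑ g ∈ range (h + 1), q g * T u t N (h - g) :=
        sum_le_sum_of_subset_of_nonneg (by intro i; simp only [mem_Ioc, mem_range]; omega)
          fun h _ _ => sum_nonneg fun g _ => mul_nonneg (hq g) (hT _)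
      have h2 : ∑ h ∈ range (N + 1), ∑ g ∈ range (h + 1), q g * T u t N (h - g) =
          ∑ g ∈ range (N + 1), ∑ h ∈ Ico g (N + 1), q g * T u t N (h - g) := by
        refine sum_comm' ?_
        intro h g
        simp only [mem_range, mem_Ico]
        omega
      have h3 : ∀ g ∈ range (N + 1), ∑ h ∈ Ico g (N + 1), q g * T u t N (h - g) ≤
          q g * ∑ s ∈ range (N + 1), T u t N s := by
        intro g _
        rw [← mul_sum]
        refine mul_le_mul_of_nonneg_left ?_ (hq g)
        rw [sum_Ico_eq_sum_range]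
        have e4 : ∀ k ∈ range (N + 1 - g), T u t N (g + k - g) = T u t N k := by
          intro k _; rw [Nat.add_sub_cancel_left]
        rw [sum_congr rfl e4]
        exact sum_le_sum_of_subset_of_nonneg (range_subset_range.2 (by omega)) fun k _ _ => hT k
      have h4 : ∑ g ∈ range (N + 1), q g * ∑ s ∈ range (N + 1), T u t N s ≤
          Q * Real.sqrt (((N : ℝ) + 1) * U * A) := by
        rw [← sum_mul]
        exact mul_le_mul hQ hTsum (sum_nonneg fun s _ => hT s)
          ((sum_nonneg fun g _ => hq g).trans hQ)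
      rw [h2] at h1
      exact h1.trans ((sum_le_sum h3).trans h4)
    · rw [← mul_sum]
      exact mul_le_mul_of_nonneg_left hBd (Real.sqrt_nonneg _)
  calc r N 0 ≤ nu u N (r N) := hval N
    _ ≤ nu u N (r a0) * Real.exp (∑ h ∈ Ioc a0 N, kap h) := hfin
    _ ≤ g0 * Real.sqrt U * Real.exp (Q * Real.sqrt (((N : ℝ) + 1) * U * A) +
        Real.sqrt U * Bd) := by
      rw [hstart]
      exact mul_le_mul_of_nonneg_left (Real.exp_le_exp.2 hkapsum)
        (mul_nonneg hg0 (Real.sqrt_nonneg _))

end Pool.PT.H90Norm
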